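import Pool.Agent.Y305.MR.Main

/-!
# MP_296844_an: the leading coefficient of the return map is not given by the Newton diagram

All definitions are in `Pool.Agent.Y305.MR.Defs`.
-/

set_option autoImplicit false

open Pool.Agent.Y305.MR

/-- The vector field
`Z = (3 x^2 y^2 + 3 x^3 y^2 - 3 y^5) ∂x + (2 x^3 - x^4 + 3 x^5 - 2 x y^3 + 3 x^2 y^3) ∂y`
has a monodromic singular point at the origin, and in the given coordinates all principal values
exist and all inner vertices are nondegenerate. In every analytic coordinate system the leading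
coefficient `η` of the return map is `exp π` or `exp (2 π / 3)`, while `∑ λ_i ξ_i = 0` whenever
these conditions hold; hence `η` is never `exp (± ∑ λ_i ξ_i)`. -/
theorem Pool.Agent.Results.MP_296844_an.NewtonReturnCoefficient.result :
    ∃ (Z : ℝ × ℝ → ℝ × ℝ) (a b : ℕ → ℕ → ℝ),
    (∀ x y : ℝ, Z (x, y) = (3 * x ^ 2 * y ^ 2 + 3 * x ^ 3 * y ^ 2 - 3 * y ^ 5,
      2 * x ^ 3 - x ^ 4 + 3 * x ^ 5 - 2 * x * y ^ 3 + 3 * x ^ 2 * y ^ 3)) ∧
    IsExpansion Z a b ∧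
    (∃ (l : ℕ) (p q : ℕ → ℕ) (v : ℕ → ℕ × ℕ) (ξ : ℕ → ℝ), 0 < l ∧ Conditions a b l p q v ξ) ∧
    (∃ R, IsReturnMap Z R ∧ HasLeadingCoeff R (Real.exp Real.pi)) ∧
    ∀ Φ W : ℝ × ℝ → ℝ × ℝ, IsChart Φ → IsExpression Z Φ W →
      (∃ R η, IsReturnMap W R ∧ HasLeadingCoeff R η) ∧
      ∀ (R : ℝ → ℝ) (η : ℝ), IsReturnMap W R → HasLeadingCoeff R η →
        (η = Real.exp Real.pi ∨ η = Real.exp (2 * Real.pi / 3)) ∧
        ∀ (a' b' : ℕ → ℕ → ℝ) (l : ℕ) (p q : ℕ → ℕ) (v : ℕ → ℕ × ℕ) (ξ : ℕ → ℝ),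
          IsExpansion W a' b' → Conditions a' b' l p q v ξ →
          exponent a' b' l p q v ξ = 0 ∧ ∀ σ : ℝ, σ = 1 ∨ σ = -1 →
            η ≠ Real.exp (σ * exponent a' b' l p q v ξ) :=
  main
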